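import Pool.Agent.Helper76.TK7.StK

/-!
# Project TK (level `3 * 7^n`), module DIMOK7: dimension of subOK (odd exponents)

Adapted from `Pool/Agent/Helper7/TH7/M_DIMOH7.lean`.
-/

set_option autoImplicit false

namespace Pool.Agent.Helper55.TK7

open Pool.Agent.Helper76.TK7 Pool.Agent.Helper4.TK Pool.Agent.Helper76.S7

section lin

variable {W W' : Type} [AddCommGroup W] [Module ℂ W] [FiniteDimensional ℂ W] [AddCommGroup W']
  [Module ℂ W']

private theorem rn (f : W →ₗ[ℂ] W') (V : Submodule ℂ W) :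
    Module.finrank ℂ (V.map f) + Module.finrank ℂ ↥(V ⊓ LinearMap.ker f) =
      Module.finrank ℂ V := by
  have h := LinearMap.finrank_range_add_finrank_ker (f.domRestrict V)
  rw [LinearMap.range_domRestrict, LinearMap.ker_domRestrict] at h
  have h2 : Module.finrank ℂ ↥((LinearMap.ker f).comap V.subtype) =
      Module.finrank ℂ ↥(V ⊓ LinearMap.ker f) := by
    rw [← Submodule.map_comap_subtype, Submodule.finrank_map_subtype_eq]
  rw [h2] at h
  exact h

end lin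

section lin2

variable {W W' : Type} [AddCommGroup W] [Module ℂ W] [FiniteDimensional ℂ W] [AddCommGroup W']
  [Module ℂ W'] [FiniteDimensional ℂ W']

private theorem fr_prod (V : Submodule ℂ W) (V' : Submodule ℂ W') :
    Module.finrank ℂ ↥(V.prod V') = Module.finrank ℂ V + Module.finrank ℂ V' := by
  have h1 : V.prod V' = LinearMap.range (V.subtype.prodMap V'.subtype) := by
    rw [LinearMap.range_prodMap, Submodule.range_subtype, Submodule.range_subtype]
  rw [h1, LinearMap.finrank_range_of_inj, Module.finrank_prod]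
  rintro ⟨a, b⟩ ⟨a', b'⟩ h
  simp only [LinearMap.prodMap_apply, Submodule.subtype_apply, Prod.mk.injEq,
    SetLike.coe_eq_coe] at h
  rw [h.1, h.2]

end lin2

private theorem pw0 {m : ℕ} (hm : 1 ≤ m) : (7 : ZMod (7 ^ m)) * 7 ^ (m - 1) = 0 := by
  rw [← pow_succ', Nat.sub_add_cancel hm]
  have h3 := ZMod.natCast_self (7 ^ m)
  push_cast at h3
  exact h3

private theorem red {m : ℕ} (hm : 1 ≤ m) (t : ℤ) :
    (t : ZMod (7 ^ m)) * 7 ^ (m - 1) = ((t : ZMod 7).val : ZMod (7 ^ m)) * 7 ^ (m - 1) := by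
  have h1 : ((t : ZMod 7).val : ℤ) = t % 7 := by
    rw [ZMod.val_intCast]
    norm_num
  have h2 : (((t : ZMod 7).val : ℕ) : ZMod (7 ^ m)) = ((t % 7 : ℤ) : ZMod (7 ^ m)) := by
    rw [← h1]
    push_cast
    rfl
  rw [h2]
  have h3 : t = t % 7 + 7 * (t / 7) := (Int.emod_add_mul_ediv t 7).symm
  have h4 : (t : ZMod (7 ^ m)) = ((t % 7 : ℤ) : ZMod (7 ^ m)) + 7 * ((t / 7 : ℤ) : ZMod (7 ^ m)) := by
    conv_lhs => rw [h3]
    push_cast
    ring
  rw [h4]
  linear_combination ((t / 7 : ℤ) : ZMod (7 ^ m)) * pw0 hm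

private theorem sum_zmod (g : ℕ → ℂ) :
    ∑ i ∈ Finset.range 7, g i = ∑ z : ZMod 7, g z.val := by
  have : ∀ h : ZMod 7 → ℂ, ∑ z : ZMod 7, h z = ∑ i : Fin 7, h i := fun h => rfl
  rw [Finset.sum_range, this]
  rfl

private theorem sum_s {m : ℕ} (hm : 1 ≤ m) (s : ℤ) (hs : ¬ (7 : ℤ) ∣ s)
    (g : ZMod (7 ^ m) → ℂ) :
    ∑ i ∈ Finset.range 7, g (s * ((i : ZMod (7 ^ m)) * 7 ^ (m - 1))) =
      ∑ i ∈ Finset.range 7, g ((i : ZMod (7 ^ m)) * 7 ^ (m - 1)) := by
  have hf : Fact (Nat.Prime 7) := ⟨by norm_num⟩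
  have hs0 : (s : ZMod 7) ≠ 0 := by
    intro h
    exact hs ((ZMod.intCast_zmod_eq_zero_iff_dvd s 7).1 h)
  rw [sum_zmod (fun i => g (s * ((i : ZMod (7 ^ m)) * 7 ^ (m - 1)))),
    sum_zmod (fun i => g ((i : ZMod (7 ^ m)) * 7 ^ (m - 1)))]
  refine Fintype.sum_equiv (Equiv.mulLeft₀ (s : ZMod 7) hs0) _ _ fun z => ?_
  have h1 := red hm (s * (z.val : ℤ))
  have h2 : ((s * (z.val : ℤ) : ℤ) : ZMod 7) = (s : ZMod 7) * z := by
    push_cast
    rw [ZMod.natCast_zmod_val]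
  rw [h2] at h1
  change g (s * ((z.val : ZMod (7 ^ m)) * 7 ^ (m - 1))) =
    g ((((s : ZMod 7) * z).val : ZMod (7 ^ m)) * 7 ^ (m - 1))
  rw [← h1]
  congr 1
  push_cast
  ring

private theorem anti_s {m : ℕ} (hm : 1 ≤ m) {F : Pt m → ℂ} (hF : F ∈ anti7 m) (s : ℤ)
    (hs : ¬ (7 : ℤ) ∣ s) (x y : ZMod (7 ^ m)) :
    ∑ i ∈ Finset.range 7, F (x + s * (i * 7 ^ (m - 1)), y) = 0 ∧
      ∑ i ∈ Finset.range 7, F (x, y + s * (i * 7 ^ (m - 1))) = 0 := by
  obtain ⟨h1, h2⟩ := hF (x, y)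
  constructor
  · rw [sum_s hm s hs (fun t => F (x + t, y))]
    exact h1
  · rw [sum_s hm s hs (fun t => F (x, y + t))]
    exact h2

private theorem dv_step {m : ℕ} (hm : 1 ≤ m) {s : ℤ} {φ : ZMod (7 ^ m) → ZMod (7 ^ m)}
    (h : Dv s φ) (x : ZMod (7 ^ m)) (i : ℕ) :
    φ (x + i * 7 ^ (m - 1)) = φ x + s * (i * 7 ^ (m - 1)) := by
  have h1 := h (m - 1) (x + i * 7 ^ (m - 1)) x ⟨i, by ring⟩
  have h2 : (7 : ZMod (7 ^ m)) ^ (m - 1 + 1) = 0 := by
    rw [Nat.sub_add_cancel hm]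
    have h3 := ZMod.natCast_self (7 ^ m)
    push_cast at h3
    exact h3
  rw [h2, zero_dvd_iff] at h1
  linear_combination h1

private theorem anti_comp {m n : ℕ} (hm : 1 ≤ m) {r : Pt m → Pt m} (hr : Ty n r) {F : Pt m → ℂ}
    (hF : F ∈ anti7 m) : (fun p => F (r p)) ∈ anti7 m := by
  rcases hr with ⟨_, s, s', φ, φ', hs, _, hs', _, hφ, hφ', hr⟩ | ⟨_, s, s', ψ, ψ', hs, hs', hψ, hψ', hr⟩
  · intro p
    simp only [hr, dv_step hm hφ, dv_step hm hφ']
    exact ⟨(anti_s hm hF s hs (φ p.1) (φ' p.2)).1, (anti_s hm hF s' hs' (φ p.1) (φ' p.2)).2⟩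
  · intro p
    simp only [hr, dv_step hm hψ, dv_step hm hψ']
    exact ⟨(anti_s hm hF s' hs' (ψ p.2) (ψ' p.1)).2, (anti_s hm hF s hs (ψ p.2) (ψ' p.1)).1⟩

/-- the sum over the rotations `(r w)^i` -/
private def S {m : ℕ} (r w : Pt m → Pt m) (F : Pt m → ℂ) (p : Pt m) : ℂ :=
  F p + F (r (w p)) + F (r (w (r (w p)))) + F (r (w (r (w (r (w p)))))) + F (w (r (w (r p)))) +
    F (w (r p))

private theorem S_anti {m : ℕ} (hm : 1 ≤ m) {r w : Pt m → Pt m} (ht : Tt r w) {F : Pt m → ℂ}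
    (hF : F ∈ anti7 m) : (fun p => S r w F p) ∈ anti7 m := by
  obtain ⟨-, h1, h2, h3, h4, h5⟩ := ht
  have e : (fun p => S r w F p) = F + (fun p => F (r (w p))) + (fun p => F (r (w (r (w p))))) +
      (fun p => F (r (w (r (w (r (w p))))))) + (fun p => F (w (r (w (r p))))) +
      (fun p => F (w (r p))) := by
    funext p
    simp only [S, Pi.add_apply]
  rw [e]
  exact Submodule.add_mem _ (Submodule.add_mem _ (Submodule.add_mem _ (Submodule.add_mem _
    (Submodule.add_mem _ hF (anti_comp hm h1 hF)) (anti_comp hm h3 hF)) (anti_comp hm h5 hF))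
    (anti_comp hm h4 hF)) (anti_comp hm h2 hF)

private theorem S_r {m : ℕ} {r w : Pt m → Pt m} (h : Dt r w) {F : Pt m → ℂ}
    (hF : ∀ p, F (r p) = F p) (p : Pt m) : S r w F (r p) = S r w F p ∧
      S r w F (w p) = S r w F p := by
  obtain ⟨h1, h2, h3⟩ := h
  have k : F (w (r (w (r (w (r p)))))) = F (w (r (w (r (w p))))) := by
    rw [← h3 p, hF]
  unfold S
  constructor
  · simp only [h1, hF]
    rw [k]
    ring
  · simp only [h2, hF]
    ring

private theorem S_w {m : ℕ} {r w : Pt m → Pt m} (h : Dt r w) {F : Pt m → ℂ}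
    (hF : ∀ p, F (w p) = F p) (p : Pt m) : S r w F (r p) = S r w F p ∧
      S r w F (w p) = S r w F p := by
  obtain ⟨h1, h2, h3⟩ := h
  have k : F (r (w (r (w (r (w p)))))) = F (r (w (r (w (r p))))) := by
    rw [h3 p, hF]
  have k' : F (r (w (r (w (r (w (r p))))))) = F (r (w (r (w p)))) := by
    rw [h3 (r p), h1, hF]
  unfold S
  constructor
  · rw [k, k']
    simp only [h1, hF]
    ring
  · rw [k]
    simp only [h2, hF]
    ring

/-- the sum over the dihedral group -/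
private theorem S_sum {m : ℕ} {r w : Pt m → Pt m} (h : Dt r w) {u v φ : Pt m → ℂ}
    (hx : ∀ q, u q - v q = (12 : ℂ)⁻¹ * φ q) (hr : ∀ q, φ (r q) = φ q) (hw : ∀ q, φ (w q) = φ q)
    (p : Pt m) :
    S r w (fun q => u q + u (r q)) p - S r w (fun q => v q + v (w q)) p = φ p := by
  obtain ⟨h1, h2, h3⟩ := h
  have k : w (r (w (r (w (r (w p)))))) = r (w (r (w (r p)))) := by
    rw [← h3 (w p), h2]
  have x1 := hx p
  have x2 := hx (r (w p))
  have x3 := hx (r (w (r (w p))))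
  have x4 := hx (r (w (r (w (r (w p))))))
  have x5 := hx (w (r (w (r p))))
  have x6 := hx (w (r p))
  have y1 := hx (r p)
  have y2 := hx (w p)
  have y3 := hx (w (r (w p)))
  have y4 := hx (w (r (w (r (w p)))))
  have y5 := hx (r (w (r (w (r p)))))
  have y6 := hx (r (w (r p)))
  simp only [hr, hw] at x2 x3 x4 x5 x6 y1 y2 y3 y4 y5 y6
  unfold S
  simp only [h1, h2, k]
  linear_combination x1 + x2 + x3 + x4 + x5 + x6 + y1 + y2 + y3 + y4 + y5 + y6

/-- the components of the map -/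
private def K1 (m : ℕ) :
    (((Pt m → ℂ) × (Pt m → ℂ)) × (Pt m → ℂ)) →ₗ[ℂ] (Pt m → ℂ) where
  toFun F p := sumO F.2 p - sumO F.1.1 p
  map_add' F F' := by
    funext p; simp only [sumO, Prod.fst_add, Prod.snd_add, Pi.add_apply]; ring
  map_smul' c F := by
    funext p
    simp only [sumO, Prod.smul_fst, Prod.smul_snd, Pi.smul_apply, smul_eq_mul, RingHom.id_apply]
    ring

private def K2 (m : ℕ) :
    (((Pt m → ℂ) × (Pt m → ℂ)) × (Pt m → ℂ)) →ₗ[ℂ] (Pt m → ℂ) where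
  toFun F p := F.2 p + F.2 (cOK p) - F.1.2 p - F.1.2 (sgK p)
  map_add' F F' := by funext p; simp only [Prod.fst_add, Prod.snd_add, Pi.add_apply]; ring
  map_smul' c F := by
    funext p
    simp only [Prod.smul_fst, Prod.smul_snd, Pi.smul_apply, smul_eq_mul, RingHom.id_apply]
    ring

private theorem K1_apply {m : ℕ} (F : ((Pt m → ℂ) × (Pt m → ℂ)) × (Pt m → ℂ)) (p : Pt m) :
    K1 m F p = sumO F.2 p - sumO F.1.1 p := rfl

private theorem K2_apply {m : ℕ} (F : ((Pt m → ℂ) × (Pt m → ℂ)) × (Pt m → ℂ)) (p : Pt m) :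
    K2 m F p = F.2 p + F.2 (cOK p) - F.1.2 p - F.1.2 (sgK p) := rfl

/-- **Module DIMOK7.** -/
theorem hDimOK : StHDimOK := by
  intro ht h12 hk hs m hm
  obtain ⟨⟨a1, a2, a3, a4⟩, ⟨b1, b2, b3, b4⟩, ⟨c1, c2, c3⟩, ⟨g1, g2⟩, -, -, -, -, -, -, -, g3, -⟩ :=
    ht m
  obtain ⟨-, q2, q3, -⟩ := hk m hm
  have sO : ∀ (F : Pt m → ℂ) (p : Pt m), sumO F p = S sgK swK F p := by
    intro F p
    obtain ⟨r1, r2, r3, r4, r5⟩ := g3 p
    unfold sumO S
    rw [← r1, ← r2, ← r3, ← r4, ← r5]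
  have eF := q3 ng swK 0 1 1 1 1 a1 a2 a3 a4 (Or.inl rfl) (Or.inl rfl)
  have eL := q3 (dR 0) cOK 0 1 1 1 1 b1 b2 b3 b4 (Or.inl rfl) (Or.inl rfl)
  have eB := q3 sgK cOK 1 1 0 1 1 c1 c2 b3 c3 (Or.inl rfl) (Or.inl rfl)
  have eS := q2 sgK 1 c1.1 c2 (Or.inl rfl)
  have eD := h12 m hm sgK swK g1 g2
  have p1 : (((1 : ℤ) : ℂ)) = 1 := by push_cast; rfl
  rw [p1] at eF eL eB eS
  set Vf := inv7 (m := m) ng swK 1 1 with hVf
  set Vl := inv7 (m := m) (dR 0) cOK 1 1 with hVl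
  set VB := inv7 (m := m) sgK cOK 1 1 with hVB
  set VD := inv7 (m := m) sgK swK 1 1 with hVD
  set Vs := inv1 (m := m) sgK 1 with hVs
  set Q : (((Pt m → ℂ) × (Pt m → ℂ)) × (Pt m → ℂ)) →ₗ[ℂ] ((Pt m → ℂ) × (Pt m → ℂ)) :=
    LinearMap.prod (K1 m) (K2 m) with hQ
  have hQa : ∀ F, Q F = (K1 m F, K2 m F) := fun _ => rfl
  have hmap : ((Vf.prod Vl).prod Vs).map Q = VD.prod VB := by
    apply le_antisymm
    · rintro _ ⟨⟨⟨f, l⟩, e⟩, ⟨⟨⟨hf, hf'⟩, ⟨hl, hl'⟩⟩, ⟨he, he'⟩⟩, rfl⟩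
      dsimp only at hf hf' hl hl' he he'
      have f1 : ∀ p, f (swK p) = f p := fun p => by rw [(hf' p).2, one_mul]
      have l1 : ∀ p, l (cOK p) = l p := fun p => by rw [(hl' p).2, one_mul]
      have e1 : ∀ p, e (sgK p) = e p := fun p => by rw [he' p, one_mul]
      rw [hQa]
      refine ⟨⟨?_, fun p => ?_⟩, ⟨?_, fun p => ⟨?_, ?_⟩⟩⟩
      · have h4 : K1 m ((f, l), e) = (fun p => S sgK swK e p) - (fun p => S sgK swK f p) := by
          funext p
          simp only [K1_apply, Pi.sub_apply, sO]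
        change K1 m ((f, l), e) ∈ anti7 m
        rw [h4]
        exact Submodule.sub_mem _ (S_anti hm g2 he) (S_anti hm g2 hf)
      · change K1 m ((f, l), e) (sgK p) = 1 * K1 m ((f, l), e) p ∧
          K1 m ((f, l), e) (swK p) = 1 * K1 m ((f, l), e) p
        simp only [K1_apply, sO]
        rw [(S_r g1 e1 p).1, (S_r g1 e1 p).2, (S_w g1 f1 p).1, (S_w g1 f1 p).2, one_mul]
        exact ⟨rfl, rfl⟩
      · have h4 : K2 m ((f, l), e) = e + (fun p => e (cOK p)) - l - (fun p => l (sgK p)) := by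
          funext p
          simp only [K2_apply, Pi.add_apply, Pi.sub_apply]
        change K2 m ((f, l), e) ∈ anti7 m
        rw [h4]
        exact Submodule.sub_mem _ (Submodule.sub_mem _ (Submodule.add_mem _ he
          (anti_comp hm b3 he)) hl) (anti_comp hm c2 hl)
      · change K2 m ((f, l), e) (sgK p) = 1 * K2 m ((f, l), e) p
        simp only [K2_apply]
        rw [c1.1 p, ← c1.2.2 p, e1 p, e1 (cOK p)]
        ring
      · change K2 m ((f, l), e) (cOK p) = 1 * K2 m ((f, l), e) p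
        simp only [K2_apply]
        rw [c1.2.1 p, c1.2.2 p, l1 p, l1 (sgK p)]
        ring
    · rintro ⟨φ, ψ⟩ ⟨hφ, hψ⟩
      simp only at hφ hψ
      obtain ⟨f0, hf0, l0, hl0, hfn0, hld0, hfl0⟩ :=
        hs 0 m hm ((12 : ℂ)⁻¹ • φ) (Submodule.smul_mem _ _ hφ.1)
      obtain ⟨f1, hf1, l1, hl1, hfn1, hld1, hfl1⟩ :=
        hs 0 m hm ((4 : ℂ)⁻¹ • ψ) (Submodule.smul_mem _ _ hψ.1)
      have hv : f1 - f0 ∈ anti7 m := Submodule.sub_mem _ hf1 hf0
      have hw : l0 - l1 ∈ anti7 m := Submodule.sub_mem _ hl0 hl1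
      have hu : l0 + f1 ∈ anti7 m := Submodule.add_mem _ hl0 hf1
      refine ⟨((((f1 - f0) + fun p => (f1 - f0) (swK p)),
        ((l0 - l1) + fun p => (l0 - l1) (cOK p))),
        (l0 + f1) + fun p => (l0 + f1) (sgK p)), ⟨⟨⟨?_, fun p => ⟨?_, ?_⟩⟩, ⟨?_, fun p => ⟨?_, ?_⟩⟩⟩,
        ⟨?_, fun p => ?_⟩⟩, ?_⟩
      · exact Submodule.add_mem _ hv (anti_comp hm a3 hv)
      · simp only [Pi.sub_apply, Pi.add_apply]
        rw [← a1.2.2 p, hfn0 p, hfn1 p, hfn0 (swK p), hfn1 (swK p)]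
        ring
      · simp only [Pi.sub_apply, Pi.add_apply]
        rw [a1.2.1 p]
        ring
      · exact Submodule.add_mem _ hw (anti_comp hm b3 hw)
      · simp only [Pi.sub_apply, Pi.add_apply]
        rw [← b1.2.2 p, hld0 p, hld1 p, hld0 (cOK p), hld1 (cOK p)]
        ring
      · simp only [Pi.sub_apply, Pi.add_apply]
        rw [b1.2.1 p]
        ring
      · exact Submodule.add_mem _ hu (anti_comp hm c2 hu)
      · simp only [Pi.add_apply]
        rw [c1.1 p]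
        ring
      · rw [hQa, Prod.mk.injEq]
        constructor
        · funext p
          rw [K1_apply, sO, sO]
          have x := S_sum g1 (u := l0 + f1) (v := f1 - f0) (φ := φ) (by
            intro q
            have x1 := hfl0 q
            simp only [Pi.smul_apply, smul_eq_mul] at x1
            simp only [Pi.sub_apply, Pi.add_apply]
            linear_combination x1) (fun q => by rw [(hφ.2 q).1, one_mul])
            (fun q => by rw [(hφ.2 q).2, one_mul]) p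
          exact x
        · funext p
          have x1 := hfl1 p
          have x2 := hfl1 (sgK p)
          have x3 := hfl1 (cOK p)
          have x4 := hfl1 (sgK (cOK p))
          simp only [Pi.smul_apply, smul_eq_mul] at x1 x2 x3 x4
          rw [(hψ.2 p).1] at x2
          rw [(hψ.2 p).2] at x3
          rw [(hψ.2 (cOK p)).1, (hψ.2 p).2] at x4
          rw [K2_apply]
          simp only [Pi.sub_apply, Pi.add_apply]
          rw [← c1.2.2 p]
          linear_combination x1 + x2 + x3 + x4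
  have hker : (Vf.prod Vl).prod Vs ⊓ LinearMap.ker Q = subOK m := by
    ext F
    constructor
    · rintro ⟨⟨⟨h1, h2⟩, h3⟩, h5⟩
      rw [SetLike.mem_coe, LinearMap.mem_ker, hQa, Prod.mk_eq_zero] at h5
      refine ⟨h1, h2, h3, fun p => ⟨?_, ?_⟩⟩
      · have := congrFun h5.1 p
        rw [K1_apply, Pi.zero_apply] at this
        exact this
      · have := congrFun h5.2 p
        rw [K2_apply, Pi.zero_apply] at this
        exact this
    · rintro ⟨h1, h2, h3, h5⟩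
      refine ⟨⟨⟨h1, h2⟩, h3⟩, ?_⟩
      rw [SetLike.mem_coe, LinearMap.mem_ker, hQa, Prod.mk_eq_zero]
      constructor
      · funext p
        rw [K1_apply, Pi.zero_apply]
        exact (h5 p).1
      · funext p
        rw [K2_apply, Pi.zero_apply]
        exact (h5 p).2
  have h6 := rn Q ((Vf.prod Vl).prod Vs)
  rw [hmap, hker, fr_prod, fr_prod, fr_prod] at h6
  zify at h6 eD ⊢
  push_cast at eF eL eB eS
  linarith

end Pool.Agent.Helper55.TK7
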