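import Pool.Agent.Helper14.TK7.StD

/-!
# Project TK, p = 7: modules STA and LWD

Adapted from `Helper94/TH7/M_Sta.lean` (levels `2*7^n`).
-/

set_option autoImplicit false

namespace Pool.Agent.Helper55.TK7

open Pool.Agent.Helper14.TK7 Pool.Agent.Helper84.S7
open Pool.Agent.Helper4.S7 (pj S7Pj)

private theorem om5 : ((om6 5 : ℤ) : ZMod 7) = 3 := by
  have h : om6 5 = -18 := rfl
  rw [h]
  decide

theorem hSta (hl : S7Low0) (_hn : S7Nfa) (h1 : S7Lw1) (hp : S7Pj) : TSta := by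
  intro r s e E hE h0
  obtain ⟨-, -, -, -, hmono, -⟩ := hl r s
  obtain ⟨hp0, hsum, -, hW, -⟩ := hp r s
  obtain ⟨-, hα⟩ := h1 r s 6 (-1) 3 (-3) (by norm_num) (by norm_num)
  have h5 : om6 5 = -18 := rfl
  obtain ⟨hα1, -⟩ := hα 5 (by rw [h5]; norm_num)
  have hP : ∀ c : ℕ, pj c E ∈ Wd7 e := fun c => by
    have := hp0 c e E hE
    rwa [sub_zero] at this
  have hK : ∀ c : ℕ, op7 6 (-1) 3 (-3) (pj c E) - (3 : ZMod 7) ^ c • pj c E ∈ Wd7 (e - 1) := fun c => by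
    have a1 := hα1 e (pj c E) (hP c)
    have a2 := hmono (e - 9) (e - 1) (by linarith) ((hW c 5).2 e E hE)
    have a3 := Submodule.add_mem _ a1 a2
    rw [LinearMap.sub_apply, LinearMap.sub_apply, Module.End.mul_apply, LinearMap.smul_apply] at a3
    have hc : ((((om6 5) ^ c : ℤ)) : ZMod 7) = (3 : ZMod 7) ^ c := by
      rw [Int.cast_pow, om5]
    rw [hc] at a3
    have e1 : op7 6 (-1) 3 (-3) (pj c E) - oW 5 (pj c E) + (oW 5 (pj c E) - (3 : ZMod 7) ^ c • pj c E)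
        = op7 6 (-1) 3 (-3) (pj c E) - (3 : ZMod 7) ^ c • pj c E := by abel
    rw [e1] at a3
    exact a3
  have hEs : E = pj 0 E + pj 1 E + pj 2 E + pj 3 E + pj 4 E + pj 5 E := by
    have h := congrArg (fun O : Module.End (ZMod 7) (Fn7 (7 ^ r) (7 ^ s)) => O E) hsum
    simp only [Finset.sum_range_succ, Finset.sum_range_zero, zero_add, LinearMap.add_apply, Module.End.one_apply] at h
    exact h.symm
  refine ⟨(3 : ZMod 7) • pj 1 E + (6 : ZMod 7) • pj 2 E + (4 : ZMod 7) • pj 3 E + (2 : ZMod 7) • pj 4 E +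
    (5 : ZMod 7) • pj 5 E, ?_, ?_⟩
  · exact Submodule.add_mem _ (Submodule.add_mem _ (Submodule.add_mem _ (Submodule.add_mem _
      (Submodule.smul_mem _ _ (hP 1)) (Submodule.smul_mem _ _ (hP 2))) (Submodule.smul_mem _ _ (hP 3)))
      (Submodule.smul_mem _ _ (hP 4))) (Submodule.smul_mem _ _ (hP 5))
  · have key : E - (((3 : ZMod 7) • pj 1 E + (6 : ZMod 7) • pj 2 E + (4 : ZMod 7) • pj 3 E + (2 : ZMod 7) • pj 4 E +
        (5 : ZMod 7) • pj 5 E) -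
        op7 6 (-1) 3 (-3) ((3 : ZMod 7) • pj 1 E + (6 : ZMod 7) • pj 2 E + (4 : ZMod 7) • pj 3 E +
          (2 : ZMod 7) • pj 4 E + (5 : ZMod 7) • pj 5 E)) =
        pj 0 E + (3 : ZMod 7) • (op7 6 (-1) 3 (-3) (pj 1 E) - (3 : ZMod 7) ^ 1 • pj 1 E)
          + (6 : ZMod 7) • (op7 6 (-1) 3 (-3) (pj 2 E) - (3 : ZMod 7) ^ 2 • pj 2 E)
          + (4 : ZMod 7) • (op7 6 (-1) 3 (-3) (pj 3 E) - (3 : ZMod 7) ^ 3 • pj 3 E)
          + (2 : ZMod 7) • (op7 6 (-1) 3 (-3) (pj 4 E) - (3 : ZMod 7) ^ 4 • pj 4 E)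
          + (5 : ZMod 7) • (op7 6 (-1) 3 (-3) (pj 5 E) - (3 : ZMod 7) ^ 5 • pj 5 E) := by
      simp only [map_add, map_smul]
      generalize hA1 : op7 6 (-1) 3 (-3) (pj 1 E) = A1
      generalize hA2 : op7 6 (-1) 3 (-3) (pj 2 E) = A2
      generalize hA3 : op7 6 (-1) 3 (-3) (pj 3 E) = A3
      generalize hA4 : op7 6 (-1) 3 (-3) (pj 4 E) = A4
      generalize hA5 : op7 6 (-1) 3 (-3) (pj 5 E) = A5
      clear hA1 hA2 hA3 hA4 hA5 hK hP h0
      generalize hP0 : pj 0 E = P0 at hEs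
      generalize hP1 : pj 1 E = P1 at hEs
      generalize hP2 : pj 2 E = P2 at hEs
      generalize hP3 : pj 3 E = P3 at hEs
      generalize hP4 : pj 4 E = P4 at hEs
      generalize hP5 : pj 5 E = P5 at hEs
      rw [hEs]
      have c1 : (3 : ZMod 7) ^ 1 = 3 := by decide
      have c2 : (3 : ZMod 7) ^ 2 = 2 := by decide
      have c3 : (3 : ZMod 7) ^ 3 = 6 := by decide
      have c4 : (3 : ZMod 7) ^ 4 = 4 := by decide
      have c5 : (3 : ZMod 7) ^ 5 = 5 := by decide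
      rw [c1, c2, c3, c4, c5]
      funext x y
      simp only [Pi.add_apply, Pi.sub_apply, Pi.smul_apply, smul_eq_mul]
      have h7 : (7 : ZMod 7) = 0 := by decide
      linear_combination (P1 x y + P2 x y + 3 * P3 x y + P4 x y + 3 * P5 x y) * h7
    rw [key]
    exact Submodule.add_mem _ (Submodule.add_mem _ (Submodule.add_mem _ (Submodule.add_mem _ (Submodule.add_mem _
      h0 (Submodule.smul_mem _ _ (hK 1))) (Submodule.smul_mem _ _ (hK 2))) (Submodule.smul_mem _ _ (hK 3)))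
      (Submodule.smul_mem _ _ (hK 4))) (Submodule.smul_mem _ _ (hK 5))

theorem hLwd (ht : S7Trm) (_hl : S7Low0) (h1 : S7Lw1) : TLwd := by
  intro r s d u hu
  have w0 : (oW 0 : Module.End (ZMod 7) (Fn7 (7 ^ r) (7 ^ s))) = 1 := by
    apply LinearMap.ext
    intro G
    exact (ht (ZMod 7) r s G).2.1
  have om0 : om6 0 = 1 := rfl
  have om1' : om6 1 = 19 := rfl
  have om3' : om6 3 = -1 := rfl
  have om5' : om6 5 = -18 := rfl
  obtain ⟨-, hT⟩ := (h1 r s 1 1 0 1 (by norm_num) (by norm_num)).2 0 (by rw [om0]; norm_num)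
  obtain ⟨-, hρ⟩ := (h1 r s 6 (-1) 3 (-3) (by norm_num) (by norm_num)).2 5 (by rw [om5']; norm_num)
  obtain ⟨-, hβ⟩ := (h1 r s 9 (-4) 3 (-9) (by norm_num) (by norm_num)).2 3 (by rw [om3']; norm_num)
  obtain ⟨-, hα⟩ := (h1 r s 12 (-7) 3 (-12) (by norm_num) (by norm_num)).2 3 (by rw [om3']; norm_num)
  obtain ⟨-, hτ⟩ := (h1 r s 18 (-13) 3 (-15) (by norm_num) (by norm_num)).2 1 (by rw [om1']; norm_num)
  have c1 : (((1 * 1 ^ 5 : ℤ)) : ZMod 7) = 1 := by decide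
  have c2 : (((0 * 1 ^ 5 * om6 0 ^ 5 : ℤ)) : ZMod 7) = 0 := by decide
  have c3 : (((-1 * 6 ^ 5 : ℤ)) : ZMod 7) = 1 := by decide
  have c4 : (((3 * 6 ^ 5 * om6 5 ^ 5 : ℤ)) : ZMod 7) = 6 := by decide
  have c5 : (((-4 * 9 ^ 5 : ℤ)) : ZMod 7) = 5 := by decide
  have c6 : (((3 * 9 ^ 5 * om6 3 ^ 5 : ℤ)) : ZMod 7) = 2 := by decide
  have c7 : (((-7 * 12 ^ 5 : ℤ)) : ZMod 7) = 0 := by decide
  have c8 : (((3 * 12 ^ 5 * om6 3 ^ 5 : ℤ)) : ZMod 7) = 5 := by decide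
  have c9 : (((-13 * 18 ^ 5 : ℤ)) : ZMod 7) = 2 := by decide
  have c10 : (((3 * 18 ^ 5 * om6 1 ^ 5 : ℤ)) : ZMod 7) = 4 := by decide
  rw [c1, c2, w0] at hT
  rw [c3, c4] at hρ
  rw [c5, c6] at hβ
  rw [c7, c8] at hα
  rw [c9, c10] at hτ
  have a0 := hT d (u 0) (hu 0)
  have a1 := hρ d (u 1) (hu 1)
  have a2 := hβ d (u 2) (hu 2)
  have a3 := hα d (u 3) (hu 3)
  have a4 := hτ d (u 4) (hu 4)
  have a5 := Submodule.add_mem _ (Submodule.add_mem _ (Submodule.add_mem _ (Submodule.sub_mem _ a1 a0) a2) a3) a4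
  convert a5 using 1
  simp only [LinearMap.sub_apply, LinearMap.add_apply, Module.End.mul_apply, Module.End.one_apply,
    LinearMap.smul_apply, one_smul, one_mul, zero_smul, add_zero]
  have e0 : (DfK u : Fn7 (7 ^ r) (7 ^ s)) = u 0 - op7 1 1 0 1 (u 0) - (u 1 - op7 6 (-1) 3 (-3) (u 1)) -
      (u 2 - op7 9 (-4) 3 (-9) (u 2)) - (u 3 - op7 12 (-7) 3 (-12) (u 3)) -
      (u 4 - op7 18 (-13) 3 (-15) (u 4)) := rfl
  rw [e0]
  generalize op7 1 1 0 1 (u 0) = B0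
  generalize op7 6 (-1) 3 (-3) (u 1) = B1
  generalize op7 9 (-4) 3 (-9) (u 2) = B2
  generalize op7 12 (-7) 3 (-12) (u 3) = B3
  generalize op7 18 (-13) 3 (-15) (u 4) = B4
  generalize oW 5 (u 1 + dX (u 1) + (6 : ZMod 7) • dY (u 1)) = C1
  generalize oW 3 (u 2 + (5 : ZMod 7) • dX (u 2) + (2 : ZMod 7) • dY (u 2)) = C2
  generalize oW 3 (u 3 + (5 : ZMod 7) • dY (u 3)) = C3
  generalize oW 1 (u 4 + (2 : ZMod 7) • dX (u 4) + (4 : ZMod 7) • dY (u 4)) = C4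
  funext x y
  simp only [Pi.add_apply, Pi.sub_apply]
  ring

end Pool.Agent.Helper55.TK7
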